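import Pool.Agent.H87.SC.Red

/-!
Discrete valuations of a generic complete intersection which are trivial on `K`
(MP_f2954d_ag, modules C4a and C4).
-/

namespace Pool.Agent.H87.KN

open SC Cardinal

section Count

variable {K : Type} [Field K] {J : Type} (S : J → Sys K)

/-- exactly one pivot in each block -/
noncomputable def pivotEquiv (hS : ∀ j, (S j).Nz) : J ≃ {x : Var S // Pivot S x} where
  toFun j := ⟨⟨j, (hS j).choose⟩, hS j, rfl⟩
  invFun x := x.1.1
  left_inv j := rfl
  right_inv x := by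
    obtain ⟨⟨j, i⟩, hx⟩ := x
    have h2 := hx.choose_spec
    apply Subtype.ext
    exact Sigma.ext rfl (heq_of_eq h2.symm)

lemma card_nonpivot (hS : ∀ j, (S j).Nz) :
    #J + #{x : Var S // ¬ Pivot S x} = #(Var S) := by
  classical
  rw [Cardinal.mk_congr (pivotEquiv S hS), ← Cardinal.mk_sum_compl {x : Var S | Pivot S x}]
  rfl

lemma trdeg_gen : Algebra.trdeg K (Gen S) = #{x : Var S // ¬ Pivot S x} := by
  have h1 := trdeg_add_eq K (MvPolynomial {x : Var S // ¬ Pivot S x} K) (A := Gen S)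
  have h2 : Algebra.trdeg (MvPolynomial {x : Var S // ¬ Pivot S x} K) (Gen S) = 0 := by
    have : Algebra.IsAlgebraic (MvPolynomial {x : Var S // ¬ Pivot S x} K) (Gen S) :=
      IsLocalization.isAlgebraic _ (nonZeroDivisors (MvPolynomial {x : Var S // ¬ Pivot S x} K))
    exact trdeg_eq_zero
  rw [h2, add_zero, MvPolynomial.trdeg_of_isDomain] at h1
  rw [← h1]; simp

end Count

lemma trdeg_kU {k L V : Type} [Field k] [Field L] [Algebra k L] (U : V → L)
    (hU : AlgebraicIndependent k U) : Algebra.trdeg k (kU k U) = #V := by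
  rw [← hU.aevalEquivField.trdeg_eq]
  have h1 := trdeg_add_eq k (MvPolynomial V k) (A := FractionRing (MvPolynomial V k))
  have h2 : Algebra.trdeg (MvPolynomial V k) (FractionRing (MvPolynomial V k)) = 0 := by
    have : Algebra.IsAlgebraic (MvPolynomial V k) (FractionRing (MvPolynomial V k)) :=
      IsLocalization.isAlgebraic _ (nonZeroDivisors (MvPolynomial V k))
    exact trdeg_eq_zero
  rw [h2, add_zero, MvPolynomial.trdeg_of_isDomain] at h1
  rw [← h1]; simp

/-- nonvanishing index: transcendence degree of the field -/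
lemma trdeg_of_idx_ne_zero {k E J : Type} [Field k] [Field E] [Algebra k E] [Finite J]
    (T : J → Sys E) (hT : ∀ j, (T j).Nz) (h : Idx T k ≠ 0) : Algebra.trdeg k E = #J := by
  classical
  unfold Idx at h
  split_ifs at h with hi
  · have hfin : Module.Finite (kU k (genU T)) (Gen T) := Module.finite_of_finrank_pos
      (Nat.pos_of_ne_zero h)
    have h1 := trdeg_add_eq k (kU k (genU T)) (A := Gen T)
    have h2 : Algebra.trdeg (kU k (genU T)) (Gen T) = 0 := trdeg_eq_zero
    have h3 := trdeg_add_eq k E (A := Gen T)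
    rw [h2, add_zero, trdeg_kU _ hi] at h1
    rw [trdeg_gen, ← h1, ← card_nonpivot T hT] at h3
    exact Cardinal.eq_of_add_eq_add_right h3 (Cardinal.lt_aleph0_of_finite _)
  · exact absurd rfl h

section TypeP

set_option linter.unusedSectionVars false

variable {k K L J : Type} [Field k] [Field K] [Field L] [Algebra k K] [Algebra K L]
  [Algebra k L] [IsScalarTower k K L] {S : J → Sys K} {U : Var S → L}

variable (S) in
/-- nonpivots -/
abbrev V0 (i0 : ∀ j, Fin (S j).r) : Type := {x : Var S // x.2 ≠ i0 x.1}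

variable (U) in
/-- evaluation of polynomials at the nonpivots -/
noncomputable abbrev psi (i0 : ∀ j, Fin (S j).r) : MvPolynomial (V0 S i0) K →ₐ[K] L :=
  MvPolynomial.aeval (fun x : V0 S i0 => U x.1)

lemma adjoin_nonpivots (hU : IsGen S U) (i0 : ∀ j, Fin (S j).r)
    (hi0 : ∀ j, (S j).s (i0 j) ≠ 0) :
    IntermediateField.adjoin K (Set.range (fun x : V0 S i0 => U x.1)) = ⊤ := by
  rw [eq_top_iff, ← hU.gen, IntermediateField.adjoin_le_iff]
  rintro _ ⟨⟨j, i⟩, rfl⟩
  set F := IntermediateField.adjoin K (Set.range (fun x : V0 S i0 => U x.1)) with hF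
  have hmem : ∀ i, i ≠ i0 j → U ⟨j, i⟩ ∈ F := fun i hi =>
    IntermediateField.subset_adjoin _ _ ⟨⟨⟨j, i⟩, hi⟩, rfl⟩
  by_cases hi : i = i0 j
  · subst hi
    have h1 := hU.rel j
    rw [← Finset.add_sum_erase _ _ (Finset.mem_univ (i0 j))] at h1
    have h2 : algebraMap K L ((S j).s (i0 j)) ≠ 0 := by simpa using hi0 j
    have h3 : U ⟨j, i0 j⟩ = (algebraMap K L ((S j).s (i0 j)))⁻¹ *
        (- ∑ x ∈ Finset.univ.erase (i0 j), algebraMap K L ((S j).s x) * U ⟨j, x⟩) := by
      field_simp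
      linear_combination h1
    rw [h3]
    refine F.mul_mem (F.inv_mem (F.algebraMap_mem _)) (F.neg_mem (F.sum_mem fun x hx => ?_))
    exact F.mul_mem (F.algebraMap_mem _) (hmem x (Finset.ne_of_mem_erase hx))
  · exact hmem i hi

lemma psi_inj (hU : IsGen S U) (i0 : ∀ j, Fin (S j).r) (hi0 : ∀ j, (S j).s (i0 j) ≠ 0) :
    Function.Injective (psi U i0) := hU.indep i0 hi0

lemma exists_frac (hU : IsGen S U) (i0 : ∀ j, Fin (S j).r) (hi0 : ∀ j, (S j).s (i0 j) ≠ 0)
    (x : L) : ∃ a b : MvPolynomial (V0 S i0) K, b ≠ 0 ∧ x = psi U i0 a / psi U i0 b := by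
  have h : x ∈ IntermediateField.adjoin K (Set.range (fun x : V0 S i0 => U x.1)) := by
    rw [adjoin_nonpivots hU i0 hi0]; trivial
  rw [IntermediateField.mem_adjoin_range_iff] at h
  obtain ⟨a, b, hab⟩ := h
  by_cases hb : b = 0
  · refine ⟨0, 1, one_ne_zero, ?_⟩
    rw [hab, hb]; simp
  · exact ⟨a, b, hb, hab⟩

variable (w : DV (kU k U) L)

lemma ord_U (x : Var S) : w.ord (U x) = 0 :=
  w.ord_base ⟨U x, IntermediateField.subset_adjoin _ _ ⟨x, rfl⟩⟩

lemma psi_nonneg (hK : ∀ x : K, w.ord (algebraMap K L x) = 0) (i0 : ∀ j, Fin (S j).r)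
    (q : MvPolynomial (V0 S i0) K) : 0 ≤ w.ord (psi U i0 q) := by
  induction q using MvPolynomial.induction_on with
  | C a => rw [MvPolynomial.aeval_C, hK]
  | add p q hp hq => rw [map_add]; exact ord_add_nonneg w hp hq
  | mul_X p n hp =>
    rw [map_mul, MvPolynomial.aeval_X]
    exact ord_mul_nonneg w hp (by rw [ord_U])

lemma exists_frac_p (hU : IsGen S U) (i0 : ∀ j, Fin (S j).r) (hi0 : ∀ j, (S j).s (i0 j) ≠ 0)
    (p : MvPolynomial (V0 S i0) K) (hp : Irreducible p) (hp1 : w.ord (psi U i0 p) = 1)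
    (hpq : ∀ q : MvPolynomial (V0 S i0) K, ¬ p ∣ q → w.ord (psi U i0 q) = 0) (x : L)
    (hx : 0 ≤ w.ord x) :
    ∃ a b : MvPolynomial (V0 S i0) K, ¬ p ∣ b ∧ x = psi U i0 a / psi U i0 b := by
  obtain ⟨a, b, hb, hab⟩ := exists_frac hU i0 hi0 x
  by_cases ha : a = 0
  · refine ⟨0, 1, hp.not_dvd_one, ?_⟩
    rw [hab, ha]; simp
  obtain ⟨m, a', ha', rfl⟩ := WfDvdMonoid.max_power_factor ha hp
  obtain ⟨n, b', hb', rfl⟩ := WfDvdMonoid.max_power_factor hb hp
  have hinj := psi_inj hU i0 hi0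
  have hne : ∀ q : MvPolynomial (V0 S i0) K, q ≠ 0 → psi U i0 q ≠ 0 := fun q hq h =>
    hq (hinj (by rw [h, map_zero]))
  have ha0 : a' ≠ 0 := fun h => ha' (h ▸ dvd_zero p)
  have hb0 : b' ≠ 0 := fun h => hb' (h ▸ dvd_zero p)
  have hp0 := hne p hp.ne_zero
  have h1 : w.ord x = m - n := by
    rw [hab, ord_div w (hne _ ha) (hne _ hb), map_mul, map_mul, map_pow, map_pow,
      w.ord_mul _ _ (pow_ne_zero _ hp0) (hne _ ha0), w.ord_mul _ _ (pow_ne_zero _ hp0) (hne _ hb0),
      ord_pow, ord_pow, hp1, hpq a' ha', hpq b' hb']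
    ring
  have hmn : n ≤ m := by omega
  refine ⟨p ^ (m - n) * a', b', hb', ?_⟩
  have h2 : p ^ m = p ^ (m - n) * p ^ n := by rw [← pow_add]; congr 1; omega
  rw [hab, h2]
  simp only [map_mul, map_pow]
  have := hne _ hb0
  field_simp

/-- the image of `K` in the residue field -/
noncomputable def resK (hK : ∀ x : K, w.ord (algebraMap K L x) = 0) : K →+* w.Res :=
  redHom w (algebraMap K L) (fun x => by rw [hK])

/-- the reduction of polynomials -/
noncomputable def redR (hK : ∀ x : K, w.ord (algebraMap K L x) = 0) (i0 : ∀ j, Fin (S j).r) :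
    MvPolynomial (V0 S i0) K →+* w.Res :=
  redHom w (psi U i0).toRingHom (fun q => psi_nonneg w hK i0 q)

lemma red_ne_zero_of_ord (x : L) (hx : x ≠ 0) (h : w.ord x = 0) : w.red x ≠ 0 := by
  intro hc
  rw [red_eq_zero w (by rw [h])] at hc
  rcases hc with hc | hc
  · exact hx hc
  · omega

lemma red_surj_frac (hK : ∀ x : K, w.ord (algebraMap K L x) = 0)
    (hU : IsGen S U) (i0 : ∀ j, Fin (S j).r) (hi0 : ∀ j, (S j).s (i0 j) ≠ 0)
    (p : MvPolynomial (V0 S i0) K) (hp : Irreducible p) (hp1 : w.ord (psi U i0 p) = 1)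
    (hpq : ∀ q : MvPolynomial (V0 S i0) K, ¬ p ∣ q → w.ord (psi U i0 q) = 0) (y : w.Res) :
    ∃ a b : MvPolynomial (V0 S i0) K, y = redR w hK i0 a / redR w hK i0 b := by
  obtain ⟨x, hx, rfl⟩ := red_surj w y
  obtain ⟨a, b, hb, hab⟩ := exists_frac_p w hU i0 hi0 p hp hp1 hpq x hx
  refine ⟨a, b, ?_⟩
  have hb0 : b ≠ 0 := fun h => hb (h ▸ dvd_zero p)
  have hb1 : psi U i0 b ≠ 0 := fun h => hb0 (psi_inj hU i0 hi0 (by rw [h, map_zero]))
  have hb2 := red_ne_zero_of_ord w _ hb1 (hpq b hb)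
  change w.red x = w.red (psi U i0 a) / w.red (psi U i0 b)
  rw [eq_div_iff hb2, ← red_mul w hx (psi_nonneg w hK i0 b), hab]
  congr 1
  field_simp

lemma res_top (hK : ∀ x : K, w.ord (algebraMap K L x) = 0)
    (hU : IsGen S U) (i0 : ∀ j, Fin (S j).r) (hi0 : ∀ j, (S j).s (i0 j) ≠ 0)
    (p : MvPolynomial (V0 S i0) K) (hp : Irreducible p) (hp1 : w.ord (psi U i0 p) = 1)
    (hpq : ∀ q : MvPolynomial (V0 S i0) K, ¬ p ∣ q → w.ord (psi U i0 q) = 0) :
    IntermediateField.adjoin (kU k U) (Set.range fun x : K => w.red (algebraMap K L x)) = ⊤ := by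
  set F := IntermediateField.adjoin (kU k U) (Set.range fun x : K => w.red (algebraMap K L x))
    with hF
  have key : ∀ q : MvPolynomial (V0 S i0) K, redR w hK i0 q ∈ F := by
    intro q
    induction q using MvPolynomial.induction_on with
    | C a =>
      apply IntermediateField.subset_adjoin
      refine ⟨a, ?_⟩
      change _ = w.red (psi U i0 (MvPolynomial.C a))
      rw [MvPolynomial.aeval_C]
    | add p q hp hq => rw [map_add]; exact F.add_mem hp hq
    | mul_X p n hp =>
      rw [map_mul]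
      refine F.mul_mem hp ?_
      have h1 : redR w hK i0 (MvPolynomial.X n) = algebraMap (kU k U) w.Res
          ⟨U n.1, IntermediateField.subset_adjoin _ _ ⟨n.1, rfl⟩⟩ := by
        rw [← red_base w]
        change w.red (psi U i0 (MvPolynomial.X n)) = _
        rw [MvPolynomial.aeval_X]
        rfl
      rw [h1]
      exact F.algebraMap_mem _
  rw [eq_top_iff]
  rintro y -
  obtain ⟨a, b, rfl⟩ := red_surj_frac w hK hU i0 hi0 p hp hp1 hpq y
  exact F.div_mem (key a) (key b)

lemma mo_up_triv (hK : ∀ x : K, w.ord (algebraMap K L x) = 0) (a : Sys K) (ha : a.Nz) :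
    w.mo (a.up L) = 0 := by
  apply mo_eq
  · obtain ⟨i, hi⟩ := ha
    exact ⟨i, by simpa using hi, hK _⟩
  · intro i _
    change (0 : ℤ) ≤ w.ord (algebraMap K L (a.s i))
    rw [hK]

lemma res_up_triv (hK : ∀ x : K, w.ord (algebraMap K L x) = 0) (a : Sys K) (ha : a.Nz) :
    w.res (a.up L) = a.map (resK w hK) := by
  unfold DV.res
  rw [mo_up_triv w hK a ha]
  simp only [neg_zero, zpow_zero, mul_one]
  rfl

lemma res_up_nz (hK : ∀ x : K, w.ord (algebraMap K L x) = 0) (a : Sys K) (ha : a.Nz) :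
    (w.res (a.up L)).Nz := by
  rw [res_up_triv w hK a ha]
  obtain ⟨i, hi⟩ := ha
  exact ⟨i, by simpa using hi⟩

end TypeP

/-- module C4a -/
theorem c4a : T_C4a := by
  intro k K L J J' _ _ _ _ _ _ _ hkK _ _ S T U w i0 hT hU hi0 hind hidx hK p hp hp1 hpq
  have htop := res_top w hK hU i0 hi0 p hp hp1 hpq
  refine ⟨?_, ?_, htop⟩
  · rw [← IntermediateField.fg_top_iff]
    obtain ⟨t, ht⟩ := IntermediateField.fg_top k K
    classical
    refine ⟨t.image (resK w hK), ?_⟩
    rw [eq_top_iff, ← htop, IntermediateField.adjoin_le_iff]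
    rintro _ ⟨x, rfl⟩
    change resK w hK x ∈ IntermediateField.adjoin (kU k U) (↑(t.image (resK w hK)) : Set w.Res)
    have hx : x ∈ IntermediateField.adjoin k (t : Set K) := by rw [ht]; trivial
    induction hx using IntermediateField.adjoin_induction with
    | mem x hx =>
      apply IntermediateField.subset_adjoin
      simp only [Finset.coe_image, Set.mem_image, Finset.mem_coe]
      exact ⟨x, hx, rfl⟩
    | algebraMap c =>
      have h1 : resK w hK (algebraMap k K c) = algebraMap (kU k U) w.Res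
          (algebraMap k (kU k U) c) := by
        rw [← red_base w]
        change w.red (algebraMap K L (algebraMap k K c)) = _
        rw [← IsScalarTower.algebraMap_apply k K L]
        rfl
      rw [h1]
      exact IntermediateField.algebraMap_mem _ _
    | add x y _ _ hx hy => rw [map_add]; exact IntermediateField.add_mem _ hx hy
    | inv x _ hx => rw [map_inv₀]; exact IntermediateField.inv_mem _ hx
    | mul x y _ _ hx hy => rw [map_mul]; exact IntermediateField.mul_mem _ hx hy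
  · rw [trdeg_of_idx_ne_zero _ (fun j => res_up_nz w hK (T j) (hT j)) hidx]
    simp

end Pool.Agent.H87.KN
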