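import Pool.Agent.H87.SC.TypeP

/-!
Module C4: moving a type P valuation (MP_f2954d_ag).
-/

namespace Pool.Agent.H87.KN

open SC Cardinal

lemma red_sum {k K : Type} [Field k] [Field K] [Algebra k K] (v : DV k K) {ι : Type}
    (s : Finset ι) (f : ι → K) (hf : ∀ i ∈ s, 0 ≤ v.ord (f i)) :
    0 ≤ v.ord (∑ i ∈ s, f i) ∧ v.red (∑ i ∈ s, f i) = ∑ i ∈ s, v.red (f i) := by
  classical
  induction s using Finset.induction_on with
  | empty => simp [v.ord_zero, red_zero]
  | insert a s ha ih =>
    obtain ⟨h1, h2⟩ := ih (fun i hi => hf i (Finset.mem_insert_of_mem hi))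
    have h3 := hf a (Finset.mem_insert_self a s)
    rw [Finset.sum_insert ha, Finset.sum_insert ha, red_add v h3 h1, h2]
    exact ⟨ord_add_nonneg v h3 h1, rfl⟩

/-- restriction of a valuation along a homomorphism of fields -/
lemma restrict {k k' K L : Type} [Field k] [Field k'] [Field K] [Field L] [Algebra k K]
    [Algebra k' L] (P : DV k' L) (ι : K →+* L) (hbase : ∀ c : k, P.ord (ι (algebraMap k K c)) = 0)
    (hne : ∃ x, P.ord (ι x) ≠ 0) :
    ∃ (v : DV k K) (e : ℕ), 0 < e ∧ ∀ x, P.ord (ι x) = e * v.ord x := by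
  classical
  have hex : ∃ n : ℕ, 0 < n ∧ ∃ x, x ≠ 0 ∧ P.ord (ι x) = n := by
    obtain ⟨x, hx⟩ := hne
    have hx0 : x ≠ 0 := by rintro rfl; simp [P.ord_zero] at hx
    rcases lt_or_gt_of_ne hx with h | h
    · refine ⟨(P.ord (ι x⁻¹)).toNat, ?_, x⁻¹, inv_ne_zero hx0, ?_⟩
      · rw [map_inv₀, P.ord_inv]; omega
      · rw [map_inv₀, P.ord_inv]; omega
    · exact ⟨(P.ord (ι x)).toNat, by omega, x, hx0, by omega⟩
  set e := Nat.find hex with he
  obtain ⟨he0, x0, hx0, hx0e⟩ := Nat.find_spec hex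
  rw [← he] at he0 hx0e
  have hmin : ∀ n : ℕ, 0 < n → (∃ x, x ≠ 0 ∧ P.ord (ι x) = n) → e ≤ n :=
    fun n h1 h2 => Nat.find_min' hex ⟨h1, h2⟩
  have hzpow : ∀ z : ℤ, P.ord (ι (x0 ^ z)) = z * e := by
    intro z
    rcases Int.eq_nat_or_neg z with ⟨n, rfl | rfl⟩
    · rw [zpow_natCast, map_pow, ord_pow, hx0e]
    · rw [zpow_neg, zpow_natCast, map_inv₀, map_pow, P.ord_inv, ord_pow, hx0e]; ring
  have hdvd : ∀ x, (e : ℤ) ∣ P.ord (ι x) := by
    intro x
    by_cases hx : x = 0
    · subst hx; simp [P.ord_zero]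
    by_contra hnd
    have h1 : 0 < P.ord (ι x) % e :=
      lt_of_le_of_ne (Int.emod_nonneg _ (by omega)) (fun h => hnd (Int.dvd_of_emod_eq_zero h.symm))
    have h2 : P.ord (ι x) % e < e := Int.emod_lt_of_pos _ (by omega)
    have h3 : P.ord (ι (x * x0 ^ (-(P.ord (ι x) / e)))) = P.ord (ι x) % e := by
      have := Int.emod_add_mul_ediv (P.ord (ι x)) e
      rw [map_mul, P.ord_mul _ _ ((map_ne_zero ι).2 hx) ((map_ne_zero ι).2 (zpow_ne_zero _ hx0)),
        hzpow]
      linarith
    have h4 := hmin (P.ord (ι x) % e).toNat (by omega)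
      ⟨_, mul_ne_zero hx (zpow_ne_zero _ hx0), by rw [h3]; omega⟩
    omega
  have hmul : ∀ x, P.ord (ι x) = e * (P.ord (ι x) / e) := fun x =>
    (Int.mul_ediv_cancel' (hdvd x)).symm
  refine ⟨⟨fun x => P.ord (ι x) / e, by simp [P.ord_zero], ?_, ?_, ?_, ?_⟩, e, he0, hmul⟩
  · intro x y hx hy
    rw [map_mul, P.ord_mul _ _ (by simpa using hx) (by simpa using hy),
      Int.add_ediv_of_dvd_left (hdvd x)]
  · intro x y hx hy hxy
    have h1 := P.ord_add (ι x) (ι y) ((map_ne_zero ι).2 hx) ((map_ne_zero ι).2 hy)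
      (by rw [← map_add]; exact (map_ne_zero ι).2 hxy)
    rw [← map_add] at h1
    rcases min_le_iff.1 h1 with h | h
    · exact (min_le_left _ _).trans (Int.ediv_le_ediv (by omega) h)
    · exact (min_le_right _ _).trans (Int.ediv_le_ediv (by omega) h)
  · intro c
    rw [hbase]; simp
  · refine ⟨x0, hx0, ?_⟩
    rw [hx0e]
    exact Int.ediv_self (by omega)

/-- minimal orders along a homomorphism -/
lemma mo_restrict {k k' K L K0 : Type} [Field k] [Field k'] [Field K] [Field L] [Field K0]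
    [Algebra k K] [Algebra k' L] [Algebra K0 K] [Algebra K0 L] (P : DV k' L) (ι : K →ₐ[K0] L)
    (v : DV k K) (e : ℕ) (he : 0 < e) (h : ∀ x, P.ord (ι x) = e * v.ord x) (a : Sys K0)
    (ha : a.Nz) : P.mo (a.up L) = e * v.mo (a.up K) := by
  have hup : (a.up K).Nz := by obtain ⟨i, hi⟩ := ha; exact ⟨i, by simpa using hi⟩
  obtain ⟨⟨i, hi, hi'⟩, h2⟩ := mo_spec v (a.up K) hup
  have hs : ∀ i, (a.up L).s i = ι ((a.up K).s i) := fun i => (ι.commutes _).symm
  apply mo_eq
  · refine ⟨i, by rw [hs]; simpa using hi, ?_⟩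
    rw [hs, h, hi']
  · intro i hi
    rw [hs, h]
    have : (a.up K).s i ≠ 0 := fun h0 => hi (by rw [hs, h0, map_zero])
    have := h2 i this
    exact mul_le_mul_of_nonneg_left this (by positivity)

lemma mo_triv {k' L K0 : Type} [Field k'] [Field L] [Field K0]
    [Algebra k' L] [Algebra K0 L] (P : DV k' L) (h : ∀ x : K0, P.ord (algebraMap K0 L x) = 0)
    (a : Sys K0) (ha : a.Nz) : P.mo (a.up L) = 0 := by
  obtain ⟨i, hi⟩ := ha
  apply mo_eq
  · exact ⟨i, by simpa using hi, h _⟩
  · intro i _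
    change (0 : ℤ) ≤ P.ord (algebraMap K0 L (a.s i))
    rw [h]

/-- the inequality on the curve `M / k2` -/
lemma curve_ineq (hV6b : T_V6b) (hV6c : T_V6c) (hM1 : T_M1)
    {k2 M K0 k' L' : Type} [Field k2] [CharZero k2] [Field M] [Algebra k2 M]
    [Algebra.EssFiniteType k2 M] [Field K0] [Algebra K0 M] [Field k'] [Field L'] [Algebra k' L']
    [Algebra K0 L'] (htr : Algebra.trdeg k2 M = 1) (ι : L' →ₐ[K0] M)
    (hbase : ∀ c : k', ∃ d : k2, ι (algebraMap k' L' c) = algebraMap k2 M d)
    (φ : List (ℤ × Sys K0)) (hφ : Nzl φ) (g : L') (hg : g ∈ Hs k' (upl L' φ)) (hg0 : g ≠ 0) :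
    0 ≤ (φ.map fun p => p.1 * (Idx (fun _ : Unit => p.2.up M) k2 : ℤ)).sum := by
  classical
  have hval : ∀ P : DV k2 M, (φ.map fun p => p.1 * P.mo (p.2.up M)).sum ≤ P.ord (ι g) := by
    intro P
    by_cases htriv : ∃ x, P.ord (ι x) ≠ 0
    · obtain ⟨v, e, he, hv⟩ := restrict P ι.toRingHom (k := k') (fun c => by
        obtain ⟨d, hd⟩ := hbase c
        change P.ord (ι (algebraMap k' L' c)) = 0
        rw [hd, P.ord_base]) htriv
      have hv' : ∀ x, P.ord (ι x) = e * v.ord x := hv
      have h1 : v.val (upl L' φ) ≤ v.ord g := (hg v).resolve_left hg0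
      have h2 : (φ.map fun p => p.1 * P.mo (p.2.up M)).sum = e * v.val (upl L' φ) := by
        unfold DV.val upl
        rw [List.map_map, ← List.sum_map_mul_left]
        congr 1
        apply List.map_congr_left
        intro p hp
        simp only [Function.comp]
        rw [mo_restrict P ι v e he hv' p.2 (hφ p hp)]
        ring
      rw [h2, hv']
      exact mul_le_mul_of_nonneg_left h1 (by positivity)
    · push Not at htriv
      have h2 : (φ.map fun p => p.1 * P.mo (p.2.up M)).sum = 0 := by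
        apply List.sum_eq_zero
        intro z hz
        rw [List.mem_map] at hz
        obtain ⟨p, hp, rfl⟩ := hz
        rw [mo_triv P (fun x => by rw [← ι.commutes]; exact htriv _) p.2 (hφ p hp), mul_zero]
      rw [h2, htriv]
  have hιg : ι g ≠ 0 := by simpa using hg0
  have hfin : ∀ a : Sys K0, a.Nz →
      (Function.support fun P : DV k2 M => (P.deg : ℤ) * P.mo (a.up M)).Finite := by
    intro a ha
    have h1 : (⋃ i : Fin a.r, {v : DV k2 M | v.ord ((a.up M).s i) ≠ 0}).Finite :=
      Set.finite_iUnion fun i => hV6b k2 M htr _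
    refine h1.subset ?_
    intro P hP
    rw [Function.mem_support] at hP
    have hup : (a.up M).Nz := by obtain ⟨i, hi⟩ := ha; exact ⟨i, by simpa using hi⟩
    obtain ⟨⟨i, hi, hi'⟩, -⟩ := mo_spec P (a.up M) hup
    rw [Set.mem_iUnion]
    refine ⟨i, ?_⟩
    intro h0
    apply hP
    rw [← hi', h0, mul_zero]
  have hsum : ∀ ψ : List (ℤ × Sys K0), Nzl ψ →
      (Function.support fun P : DV k2 M =>
        (P.deg : ℤ) * (ψ.map fun p => p.1 * P.mo (p.2.up M)).sum).Finite ∧
      (ψ.map fun p => p.1 * (Idx (fun _ : Unit => p.2.up M) k2 : ℤ)).sum =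
        - ∑ᶠ P : DV k2 M, (P.deg : ℤ) * (ψ.map fun p => p.1 * P.mo (p.2.up M)).sum := by
    intro ψ
    induction ψ with
    | nil => intro _; simp
    | cons p ψ ih =>
      intro hψ
      obtain ⟨ih1, ih2⟩ := ih (fun q hq => hψ q (List.mem_cons_of_mem _ hq))
      have hp : p.2.Nz := hψ p List.mem_cons_self
      have hup : (p.2.up M).Nz := by obtain ⟨i, hi⟩ := hp; exact ⟨i, by simpa using hi⟩
      have heq : (fun P : DV k2 M =>
          (P.deg : ℤ) * ((p :: ψ).map fun p => p.1 * P.mo (p.2.up M)).sum) =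
          fun P : DV k2 M => p.1 * ((P.deg : ℤ) * P.mo (p.2.up M)) +
            (P.deg : ℤ) * (ψ.map fun p => p.1 * P.mo (p.2.up M)).sum := by
        funext P
        rw [List.map_cons, List.sum_cons]; ring
      have hf1 : (Function.support fun P : DV k2 M =>
          p.1 * ((P.deg : ℤ) * P.mo (p.2.up M))).Finite := by
        refine (hfin p.2 hp).subset ?_
        intro P hP h0
        apply hP
        simp only at h0 ⊢
        rw [h0, mul_zero]
      constructor
      · rw [heq]
        exact (hf1.union ih1).subset (Function.support_add _ _)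
      · rw [heq, List.map_cons, List.sum_cons, ih2, finsum_add_distrib hf1 ih1, ← mul_finsum,
          hM1 k2 M htr (p.2.up M) hup]
        ring
  obtain ⟨h1, h2⟩ := hsum φ hφ
  rw [h2]
  have h3 := hV6c k2 M htr (ι g)
  have h4 : (Function.support fun P : DV k2 M => (P.deg : ℤ) * P.ord (ι g)).Finite := by
    refine (hV6b k2 M htr (ι g)).subset ?_
    intro P hP h0
    apply hP
    simp only [h0, mul_zero]
  have h5 : ∑ᶠ P : DV k2 M, (P.deg : ℤ) * (φ.map fun p => p.1 * P.mo (p.2.up M)).sum ≤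
      ∑ᶠ P : DV k2 M, (P.deg : ℤ) * P.ord (ι g) := by
    rw [finsum_eq_sum_of_support_subset _ (s := h1.toFinset ∪ h4.toFinset) (by
        intro P hP; simp only [Finset.coe_union, Set.Finite.coe_toFinset]; exact Or.inl hP),
      finsum_eq_sum_of_support_subset _ (s := h1.toFinset ∪ h4.toFinset) (by
        intro P hP; simp only [Finset.coe_union, Set.Finite.coe_toFinset]; exact Or.inr hP)]
    apply Finset.sum_le_sum
    intro P _
    exact mul_le_mul_of_nonneg_left (hval P) (by positivity)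
  rw [h3] at h5
  linarith

/-- two generic complete intersections: a model inside a larger field -/
lemma embed (hG1b : T_G1b) (hG1c : T_G1c) {K J L' M : Type} [Field K] [Finite J] [Field L']
    [Algebra K L'] [Field M] [Algebra K M] (S : J → Sys K) (U' : Var S → L') (U'' : Var S → M)
    (i0 : ∀ j, Fin (S j).r) (hi0 : ∀ j, (S j).s (i0 j) ≠ 0) (hU' : IsGen S U')
    (hrel : ∀ j, ∑ i, algebraMap K M ((S j).s i) * U'' ⟨j, i⟩ = 0)
    (hind : AlgebraicIndependent K (fun x : {x : Var S // x.2 ≠ i0 x.1} => U'' x.1)) :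
    ∃ ι : L' →ₐ[K] M, ∀ x, ι (U' x) = U'' x := by
  set M0 := IntermediateField.adjoin K (Set.range U'') with hM0
  let U0 : Var S → M0 := fun x => ⟨U'' x, IntermediateField.subset_adjoin _ _ ⟨x, rfl⟩⟩
  have hgen : IsGen S U0 := by
    refine hG1c K J M0 S U0 i0 hi0 ?_ ?_ ?_
    · intro j
      apply Subtype.ext
      push_cast
      exact hrel j
    · apply AlgebraicIndependent.of_comp M0.val
      exact hind
    · apply IntermediateField.map_injective M0.val
      rw [IntermediateField.adjoin_map, ← AlgHom.fieldRange_eq_map,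
        IntermediateField.fieldRange_val, ← Set.range_comp]
      rfl
  obtain ⟨e, he⟩ := hG1b K J L' M0 S U' U0 (fun j => ⟨i0 j, hi0 j⟩) hU' hgen
  refine ⟨M0.val.comp e.toAlgHom, fun x => ?_⟩
  change ((e (U' x) : M0) : M) = U'' x
  rw [he]

lemma sys_cast {K : Type} {A B : Sys K} (h : A = B) (m : Fin A.r) :
    A.s m = B.s (Fin.cast (congrArg Sys.r h) m) := by subst h; rfl

/-- replacing one block by generic elements over the field generated by the other blocks -/
lemma glue {K E M J : Type} [Field K] [Field E] [Field M] [Algebra K E] [Algebra E M]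
    [Algebra K M] [IsScalarTower K E M] (S S' : J → Sys K) (j : J) (a : Sys K) (hSj : S' j = a)
    (hSi : ∀ i, i ≠ j → S' i = S i) (u : Var S → E) (ua : Fin a.r → M)
    (hu : ∀ i, i ≠ j → ∑ m, algebraMap K E ((S i).s m) * u ⟨i, m⟩ = 0)
    (hua : ∑ m, algebraMap K M (a.s m) * ua m = 0) (i0 : ∀ i, Fin (S i).r) (i1 : Fin a.r)
    (hind1 : AlgebraicIndependent K
      (fun y : {x : Var S // x.2 ≠ i0 x.1 ∧ x.1 ≠ j} => u y.1))
    (hind2 : AlgebraicIndependent E (fun m : {m // m ≠ i1} => ua m.1))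
    (hi0 : ∀ i, (S i).s (i0 i) ≠ 0) (hi1 : a.s i1 ≠ 0) :
    ∃ (U'' : Var S' → M) (i0' : ∀ i, Fin (S' i).r), (∀ i, (S' i).s (i0' i) ≠ 0) ∧
      (∀ i, ∑ m, algebraMap K M ((S' i).s m) * U'' ⟨i, m⟩ = 0) ∧
      AlgebraicIndependent K (fun x : {x : Var S' // x.2 ≠ i0' x.1} => U'' x.1) ∧
      ∀ x, (∃ m, U'' x = ua m) ∨ ∃ y, U'' x = algebraMap E M (u y) := by
  classical
  have e1 : ∀ {i}, i = j → S' i = a := fun h => by rw [h, hSj]
  have h1 : ∀ {i}, i = j → (S' i).r = a.r := fun h => congrArg Sys.r (e1 h)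
  have h2 : ∀ {i}, i ≠ j → (S' i).r = (S i).r := fun h => congrArg Sys.r (hSi _ h)
  let U'' : Var S' → M := fun x => if h : x.1 = j then ua (Fin.cast (h1 h) x.2) else
    algebraMap E M (u ⟨x.1, Fin.cast (h2 h) x.2⟩)
  let i0' : ∀ i, Fin (S' i).r := fun i => if h : i = j then Fin.cast (h1 h).symm i1 else
    Fin.cast (h2 h).symm (i0 i)
  have hU1 : ∀ (x : Var S') (h : x.1 = j), U'' x = ua (Fin.cast (h1 h) x.2) :=
    fun x h => dif_pos h
  have hU2 : ∀ (x : Var S') (h : x.1 ≠ j), U'' x = algebraMap E M (u ⟨x.1, Fin.cast (h2 h) x.2⟩) :=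
    fun x h => dif_neg h
  have hp1 : ∀ i (h : i = j), i0' i = Fin.cast (h1 h).symm i1 := fun i h => dif_pos h
  have hp2 : ∀ i (h : i ≠ j), i0' i = Fin.cast (h2 h).symm (i0 i) := fun i h => dif_neg h
  refine ⟨U'', i0', ?_, ?_, ?_, ?_⟩
  · intro i
    by_cases h : i = j
    · rw [sys_cast (e1 h)]
      have : Fin.cast (h1 h) (i0' i) = i1 := by
        simp only [i0', dif_pos h]; rfl
      rw [this]
      exact hi1
    · rw [sys_cast (hSi i h)]
      have : Fin.cast (h2 h) (i0' i) = i0 i := by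
        simp only [i0', dif_neg h]; rfl
      rw [this]
      exact hi0 i
  · intro i
    by_cases h : i = j
    · rw [← hua]
      refine Fintype.sum_equiv (finCongr (h1 h)) _ _ ?_
      intro m
      rw [hU1 ⟨i, m⟩ h, sys_cast (e1 h)]
      rfl
    · have h3 := congrArg (algebraMap E M) (hu i h)
      rw [map_sum, map_zero] at h3
      rw [← h3]
      refine Fintype.sum_equiv (finCongr (h2 h)) _ _ ?_
      intro m
      rw [hU2 ⟨i, m⟩ h, sys_cast (hSi i h), map_mul, ← IsScalarTower.algebraMap_apply]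
      rfl
  · let f : {x : Var S' // x.2 ≠ i0' x.1} →
        {m : Fin a.r // m ≠ i1} ⊕ {x : Var S // x.2 ≠ i0 x.1 ∧ x.1 ≠ j} := fun x =>
      if h : x.1.1 = j then Sum.inl ⟨Fin.cast (h1 h) x.1.2, by
        intro hc
        apply x.2
        rw [hp1 _ h]
        apply Fin.ext
        have h7 := congrArg Fin.val hc
        exact h7⟩
      else Sum.inr ⟨⟨x.1.1, Fin.cast (h2 h) x.1.2⟩, by
        intro hc
        apply x.2
        rw [hp2 _ h]
        apply Fin.ext
        have h7 := congrArg Fin.val hc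
        exact h7, h⟩
    have hf : Function.Injective f := by
      rintro ⟨⟨i, m⟩, hx⟩ ⟨⟨i', m'⟩, hy⟩ hxy
      by_cases h : i = j
      · by_cases h' : i' = j
        · subst h'
          subst h
          simp only [f, dif_pos] at hxy
          have := Sum.inl_injective hxy
          simp only [Subtype.mk.injEq, Fin.cast_inj] at this
          subst this
          rfl
        · simp only [f, dif_pos h, dif_neg h'] at hxy
          exact absurd hxy (by simp)
      · by_cases h' : i' = j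
        · simp only [f, dif_neg h, dif_pos h'] at hxy
          exact absurd hxy (by simp)
        · simp only [f, dif_neg h, dif_neg h'] at hxy
          have h3 := Sum.inr_injective hxy
          simp only [Subtype.mk.injEq, Sigma.mk.injEq] at h3
          obtain ⟨h4, h5⟩ := h3
          subst h4
          have h6 := eq_of_heq h5
          simp only [Fin.cast_inj] at h6
          subst h6
          rfl
    have hcomp := (hind1.sumElim_comp hind2).comp f hf
    convert hcomp using 1
    funext x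
    by_cases h : x.1.1 = j
    · rw [hU1 _ h]
      simp only [Function.comp, f, dif_pos h, Sum.elim_inl]
    · rw [hU2 _ h]
      simp only [Function.comp, f, dif_neg h, Sum.elim_inr]
  · intro x
    by_cases h : x.1 = j
    · exact Or.inl ⟨_, hU1 x h⟩
    · exact Or.inr ⟨_, hU2 x h⟩

section Main

set_option linter.unusedSectionVars false

variable {k K L J : Type} [Field k] [Field K] [Field L] [Algebra k K] [Algebra K L]
  [Algebra k L] [IsScalarTower k K L] {S : J → Sys K} {U : Var S → L} (w : DV (kU k U) L)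

/-- variables outside the block `j` -/
def incl (i0 : ∀ j, Fin (S j).r) (j : J) (y : {x : Var S // x.2 ≠ i0 x.1 ∧ x.1 ≠ j}) : V0 S i0 :=
  ⟨y.1, y.2.1⟩

lemma incl_inj (i0 : ∀ j, Fin (S j).r) (j : J) : Function.Injective (incl i0 j) := by
  intro y z h
  apply Subtype.ext
  exact congrArg (fun t : V0 S i0 => t.1) h

/-- polynomials not involving the block of a variable of `p` are not divisible by `p` -/
lemma not_dvd_rename (i0 : ∀ j, Fin (S j).r) (p : MvPolynomial (V0 S i0) K) (x0 : V0 S i0)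
    (hx0 : x0 ∈ p.vars) (j : J) (hj : x0.1.1 = j)
    (q : MvPolynomial {x : Var S // x.2 ≠ i0 x.1 ∧ x.1 ≠ j} K) (hq : q ≠ 0) :
    ¬ p ∣ MvPolynomial.rename (incl i0 j) q := by
  classical
  rintro ⟨r, hr⟩
  have h0 : MvPolynomial.rename (incl i0 j) q ≠ 0 :=
    fun h => hq (MvPolynomial.rename_injective _ (incl_inj i0 j) (by rw [h, map_zero]))
  have hp0 : p ≠ 0 := by rintro rfl; rw [zero_mul] at hr; exact h0 hr
  have hr0 : r ≠ 0 := by rintro rfl; rw [mul_zero] at hr; exact h0 hr
  have h1 : x0 ∈ (MvPolynomial.rename (incl i0 j) q).vars := by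
    rw [hr, MvPolynomial.vars_def, MvPolynomial.degrees_mul_eq hp0 hr0, Multiset.mem_toFinset,
      Multiset.mem_add]
    left
    rw [MvPolynomial.vars_def, Multiset.mem_toFinset] at hx0
    exact hx0
  have h2 := MvPolynomial.vars_rename _ _ h1
  rw [Finset.mem_image] at h2
  obtain ⟨y, -, hy⟩ := h2
  have h3 : (incl i0 j y).1.1 = j := by rw [hy, hj]
  exact y.2.2 h3

/-- independence of the residues of the variables in the other blocks -/
lemma indep_other (hK : ∀ x : K, w.ord (algebraMap K L x) = 0) (hU : IsGen S U)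
    (i0 : ∀ j, Fin (S j).r) (hi0 : ∀ j, (S j).s (i0 j) ≠ 0) (p : MvPolynomial (V0 S i0) K)
    (hpq : ∀ q : MvPolynomial (V0 S i0) K, ¬ p ∣ q → w.ord (psi U i0 q) = 0) (x0 : V0 S i0)
    (hx0 : x0 ∈ p.vars) (j : J) (hj : x0.1.1 = j) [Algebra K w.Res]
    (halg : ∀ x : K, algebraMap K w.Res x = resK w hK x) :
    AlgebraicIndependent K
      (fun y : {x : Var S // x.2 ≠ i0 x.1 ∧ x.1 ≠ j} => w.red (U y.1)) := by
  rw [algebraicIndependent_iff]
  intro q hq
  by_contra hq0
  have hnd := not_dvd_rename i0 p x0 hx0 j hj q hq0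
  have h0 : (redR w hK i0).comp
      (MvPolynomial.rename (incl i0 j) : MvPolynomial _ K →ₐ[K] _).toRingHom =
      (MvPolynomial.aeval (R := K)
        (fun y : {x : Var S // x.2 ≠ i0 x.1 ∧ x.1 ≠ j} => w.red (U y.1))).toRingHom := by
    apply MvPolynomial.ringHom_ext
    · intro a
      change w.red (psi U i0 (MvPolynomial.rename (incl i0 j) (MvPolynomial.C a))) =
        MvPolynomial.aeval _ (MvPolynomial.C a)
      rw [MvPolynomial.rename_C, MvPolynomial.aeval_C, MvPolynomial.aeval_C, halg]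
      rfl
    · intro y
      change w.red (psi U i0 (MvPolynomial.rename (incl i0 j) (MvPolynomial.X y))) =
        MvPolynomial.aeval _ (MvPolynomial.X y)
      rw [MvPolynomial.rename_X, MvPolynomial.aeval_X, MvPolynomial.aeval_X]
      rfl
  have h1 : redR w hK i0 (MvPolynomial.rename (incl i0 j) q) = 0 := by
    rw [← hq]
    exact congrArg (fun f : MvPolynomial _ K →+* w.Res => f q) h0
  have h2 : psi U i0 (MvPolynomial.rename (incl i0 j) q) ≠ 0 := by
    intro h
    have : MvPolynomial.rename (incl i0 j) q = 0 := psi_inj hU i0 hi0 (by rw [h, map_zero])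
    exact hnd (by rw [this]; exact dvd_zero p)
  exact red_ne_zero_of_ord w _ h2 (hpq _ hnd) h1

end Main

open Classical in
/-- module C4 -/
theorem c4 (hC2 : T_C2) (hV6b : T_V6b) (hV6c : T_V6c) (hM1 : T_M1) (hG1a : T_G1a) (hG1b : T_G1b)
    (hG1c : T_G1c) (hG2r : T_G2r) (hG3i : T_G3i) (hG3t : T_G3t) : T_C4 := by
  intro k K L J J' _ _ _ _ _ _ _ _ _ _ _ S T U w hS hT hU hind hJ' htr hidx hK
  choose i0 hi0 using hS
  obtain ⟨p, hp, hp1, hpq⟩ := hC2 k K L J J' S T U w i0 hT hU hi0 hind
    (by rw [htr, hJ']) hidx hK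
  obtain ⟨hess, htrE, -⟩ := c4a k K L J J' S T U w i0 hT hU hi0 hind hidx hK p hp hp1 hpq
  rw [hJ'] at htrE
  obtain ⟨x0, hx0⟩ : p.vars.Nonempty := by
    rw [Finset.nonempty_iff_ne_empty]
    intro h
    rw [MvPolynomial.vars_eq_empty_iff_eq_C] at h
    apply hp.not_isUnit
    rw [h]
    apply IsUnit.map
    rw [isUnit_iff_ne_zero]
    intro h0
    apply hp.ne_zero
    rw [h, h0, map_zero]
  obtain ⟨j, hj⟩ : ∃ j, x0.1.1 = j := ⟨_, rfl⟩
  refine ⟨j, ?_⟩
  intro a ha L' _ _ _ _ U' hU' φ hφ hg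
  obtain ⟨g, hg, hg0⟩ := hg
  set r : K →+* w.Res := resK w hK with hr
  let instKE : Algebra K w.Res := r.toAlgebra
  have halg : ∀ x : K, algebraMap K w.Res x = resK w hK x := fun _ => rfl
  have hnz : ∀ V : Sys K, V.Nz → (V.map r).Nz := by
    rintro V ⟨i, hi⟩
    exact ⟨i, by simpa using hi⟩
  -- the generic section over the residue field
  let A : Sys w.Res := a.map r
  have hA : A.Nz := hnz a ha
  let SA : Unit → Sys w.Res := fun _ => A
  have hG : IsGen SA (genU SA) := hG1a _ _ SA (fun _ => hA)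
  have hIdx1 : ∀ V : Sys K, V.Nz →
      Idx (fun i : Fin 2 => w.res ((![V, a] i).up L)) (kU k U) =
        Idx (Sum.elim SA (fun _ : Unit => V.map r)) (kU k U) := by
    intro V hV
    let e : Fin 2 ≃ Unit ⊕ Unit :=
      ⟨![Sum.inr (), Sum.inl ()], Sum.elim (fun _ => 1) (fun _ => 0),
        by intro i; fin_cases i <;> rfl, by rintro (⟨⟩ | ⟨⟩) <;> rfl⟩
    rw [← hG2r (kU k U) w.Res (Unit ⊕ Unit) (Fin 2) (Sum.elim SA (fun _ : Unit => V.map r)) e
      (by rintro (_ | _); exacts [hA, hnz V hV])]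
    congr 1
    funext i
    fin_cases i
    · exact res_up_triv w hK V hV
    · exact res_up_triv w hK a ha
  have hgoal : (φ.map fun p => p.1 *
      (Idx (fun i : Fin 2 => w.res ((![p.2, a] i).up L)) (kU k U) : ℤ)) =
      φ.map fun p => p.1 * (Idx (Sum.elim SA (fun _ : Unit => p.2.map r)) (kU k U) : ℤ) := by
    apply List.map_congr_left
    intro q hq
    rw [hIdx1 q.2 (hφ q hq)]
  rw [hgoal]
  by_cases hiA : AlgebraicIndependent (kU k U) (genU SA)
  swap
  · apply le_of_eq
    symm
    apply List.sum_eq_zero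
    intro z hz
    rw [List.mem_map] at hz
    obtain ⟨q, hq, rfl⟩ := hz
    rw [(hG3i (kU k U) w.Res (Gen SA) Unit Unit SA (fun _ => q.2.map r) (genU SA) (fun _ => hA)
      (fun _ => hnz _ (hφ q hq)) hG).2 hiA]
    simp
  have htow : ∀ x : K, algebraMap w.Res (Gen SA) (r x) = algebraMap K (Gen SA) x := fun x =>
    (IsScalarTower.algebraMap_apply K w.Res (Gen SA) x).symm
  have hup : ∀ V : Sys K, (V.map r).up (Gen SA) = V.up (Gen SA) := by
    intro V
    unfold Sys.up Sys.map
    congr 1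
  have hgoal2 : (φ.map fun p => p.1 *
      (Idx (Sum.elim SA (fun _ : Unit => p.2.map r)) (kU k U) : ℤ)) =
      φ.map fun p => p.1 * (Idx (fun _ : Unit => p.2.up (Gen SA)) (kU (kU k U) (genU SA)) : ℤ) := by
    apply List.map_congr_left
    intro q hq
    rw [(hG3i (kU k U) w.Res (Gen SA) Unit Unit SA (fun _ => q.2.map r) (genU SA) (fun _ => hA)
      (fun _ => hnz _ (hφ q hq)) hG).1 hiA]
    simp only [hup]
  rw [hgoal2]
  have := hess
  obtain ⟨hess2, -, htrM⟩ := hG3t (kU k U) w.Res (Gen SA) Unit SA (genU SA) 2 (fun _ => hA) hG hiA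
    htrE
  have := hess2
  have : CharZero (kU k U) := charZero_of_injective_algebraMap (algebraMap k (kU k U)).injective
  have : CharZero (kU (kU k U) (genU SA)) :=
    charZero_of_injective_algebraMap (algebraMap (kU k U) (kU (kU k U) (genU SA))).injective
  -- the embedding
  obtain ⟨i1, hi1⟩ := ha
  have hi1' : A.s i1 ≠ 0 := by simpa [A] using hi1
  obtain ⟨U'', i0', hi0', hrel'', hind'', hU''⟩ := glue (K := K) (E := w.Res) (M := Gen SA) S
    (Function.update S j a) j a (Function.update_self ..) (fun i hi => Function.update_of_ne hi ..)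
    (fun x => w.red (U x)) (fun m => genU SA ⟨(), m⟩)
    (by
      intro i _
      have h1 := hU.rel i
      have h2 : w.red (∑ m, algebraMap K L ((S i).s m) * U ⟨i, m⟩) = 0 := by rw [h1, red_zero]
      rw [(red_sum w _ _ (fun m _ => ord_mul_nonneg w (by rw [hK]) (by rw [ord_U]))).2] at h2
      rw [← h2]
      refine Finset.sum_congr rfl fun m _ => ?_
      rw [red_mul w (by rw [hK]) (by rw [ord_U])]
      rfl)
    (by
      have h1 := hG.rel ()
      exact h1)
    i0 i1
    (indep_other w hK hU i0 hi0 p hpq x0 hx0 j hj halg)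
    (by
      have h1 := hG.indep (fun _ => i1) (fun _ => hi1')
      have h2 := h1.comp (fun m : {m : Fin a.r // m ≠ i1} =>
        (⟨⟨(), m.1⟩, m.2⟩ : {x : Var SA // x.2 ≠ i1})) (by
          intro m m' h
          apply Subtype.ext
          have h4 := congrArg (fun t : {x : Var SA // x.2 ≠ i1} => t.1) h
          exact eq_of_heq (Sigma.mk.inj_iff.1 h4).2)
      exact h2)
    hi0 hi1
  obtain ⟨ι, hι⟩ := embed hG1b hG1c (Function.update S j a) U' U'' i0' hi0' hU' hrel'' hind''
  refine curve_ineq hV6b hV6c hM1 ?_ ι ?_ φ hφ g hg hg0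
  · rw [htrM]; simp
  · rintro ⟨c, hc⟩
    suffices h : ι c ∈ kU (kU k U) (genU SA) from ⟨⟨ι c, h⟩, rfl⟩
    have hk1 : ∀ d : kU k U, algebraMap w.Res (Gen SA) (w.red (d : L)) ∈
        kU (kU k U) (genU SA) := by
      intro d
      have h1 : w.red (d : L) = algebraMap (kU k U) w.Res d := red_base w d
      rw [h1, ← IsScalarTower.algebraMap_apply (kU k U) w.Res (Gen SA)]
      exact IntermediateField.algebraMap_mem _ _
    induction hc using IntermediateField.adjoin_induction with
    | mem x hx =>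
      obtain ⟨x, rfl⟩ := hx
      rw [hι]
      rcases hU'' x with ⟨m, hm⟩ | ⟨y, hy⟩
      · rw [hm]; exact IntermediateField.subset_adjoin _ _ ⟨_, rfl⟩
      · rw [hy]
        exact hk1 ⟨U y, IntermediateField.subset_adjoin _ _ ⟨y, rfl⟩⟩
    | algebraMap c =>
      rw [IsScalarTower.algebraMap_apply k K L', ι.commutes, ← htow]
      have h1 : r (algebraMap k K c) = w.red ((algebraMap k (kU k U) c : kU k U) : L) := by
        change w.red (algebraMap K L (algebraMap k K c)) = _
        rw [← IsScalarTower.algebraMap_apply k K L]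
        rfl
      rw [h1]
      exact hk1 _
    | add x y _ _ hx hy => rw [map_add]; exact IntermediateField.add_mem _ hx hy
    | inv x _ hx => rw [map_inv₀]; exact IntermediateField.inv_mem _ hx
    | mul x y _ _ hx hy => rw [map_mul]; exact IntermediateField.mul_mem _ hx hy

end Pool.Agent.H87.KN
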