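import Pool.Agent.H15.SC.TargetsY
import Pool.Agent.H15.SC.Ms

/-!
Module LG of block B5 (MP_f2954d_ag).
-/

namespace Pool.Agent.H87.KN

open SC SCB

lemma toR_add {K : Type} [Field K] [Algebra ℂ K] {N : ℕ} {w : Fin (N + 1) → K} (A B : DivZ w) :
    toR (A + B) = toR A + toR B := by
  ext v
  simp [toR]

/-- module LG -/
theorem lg (hYLL : T_YLL) (hMD : T_MD) (hPX : T_PX) (hHX : T_HX) (hSPN : T_SPN) (hXQ : T_XQ)
    (hXR2 : T_XR2) (hXH2 : T_XH2) (hGL : SCB.T_GL) : T_LG := by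
  intro K _ _ N n w i₀ H₀ μ hsm hH hμ J _ D hn hD v
  subst hn
  obtain ⟨q1, -, -, q4, -, q6⟩ := hXQ K N _ w hsm i₀ H₀ hH
  obtain ⟨-, g2, g3⟩ := hGL (DivR w) _ μ hμ.1
  choose T hT using fun j => (q4 (D j)).1 (hD j)
  obtain ⟨hess, htr⟩ := hXH2 K N (Fintype.card J + 2) w hsm v
  -- values
  have hval : ∀ (A B : DivZ w) (TA TB : Sys K), Nice i₀ H₀ A TA → Nice i₀ H₀ B TB →
      ofMulti μ (Finsupp.single v 1 ::ₘ toR A ::ₘ toR B ::ₘ ms fun j => toR (D j)) =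
        (Idx (Sum.elim (fun j => v.1.res (T j)) ![v.1.res TA, v.1.res TB]) ℂ : ℝ) ∧
      Idx (Sum.elim (fun j => v.1.res (T j)) ![v.1.res TA, v.1.res TB]) ℂ ≠ 0 := by
    intro A B TA TB hTA hTB
    have hnice : ∀ j, Nice i₀ H₀ ((Sum.elim D ![A, B] : J ⊕ Fin 2 → DivZ w) j)
        ((Sum.elim T ![TA, TB] : J ⊕ Fin 2 → Sys K) j) := by
      rintro (j | j)
      · exact hT j
      · fin_cases j
        · exact hTA
        · exact hTB
    have hcard : Fintype.card (J ⊕ Fin 2) + 1 = Fintype.card J + 3 := by simp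
    have h1 := hMD K N _ w i₀ H₀ μ hsm (by omega) hH hμ (J ⊕ Fin 2) (Sum.elim D ![A, B])
      (Sum.elim T ![TA, TB]) hcard hnice v
    have h2 := (hPX K N _ w i₀ H₀ hsm hH (J ⊕ Fin 2) (Sum.elim D ![A, B])
      (Sum.elim T ![TA, TB]) hnice).2 hcard v
    have h3 : ms (fun j => toR ((Sum.elim D ![A, B] : J ⊕ Fin 2 → DivZ w) j)) =
        toR A ::ₘ toR B ::ₘ ms fun j => toR (D j) :=
      ms_elim2 (fun j => toR (D j)) ![toR A, toR B] _ (fun _ => rfl)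
        (by intro i; fin_cases i <;> rfl)
    have h4 : (fun j => v.1.res ((Sum.elim T ![TA, TB] : J ⊕ Fin 2 → Sys K) j)) =
        Sum.elim (fun j => v.1.res (T j)) ![v.1.res TA, v.1.res TB] := by
      funext j
      rcases j with j | j
      · rfl
      · fin_cases j <;> rfl
    rw [h3, h4] at h1
    rw [h4] at h2
    exact ⟨h1, h2⟩
  have hbil : SymBil (fun x y : DivR w =>
      ofMulti μ (Finsupp.single v 1 ::ₘ x ::ₘ y ::ₘ ms fun j => toR (D j))) := by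
    constructor
    · intro x y
      change ofMulti μ _ = ofMulti μ _
      rw [Multiset.cons_swap x y]
    · intro a b y
      change ofMulti μ _ = ofMulti μ _ + ofMulti μ _
      rw [Multiset.cons_swap _ (a + b), Multiset.cons_swap _ a, Multiset.cons_swap _ b]
      exact g2 _ _ _ (by simp [card_ms])
    · intro c a y
      change ofMulti μ _ = c * ofMulti μ _
      rw [Multiset.cons_swap _ (c • a), Multiset.cons_swap _ a]
      exact g3 _ _ _ (by simp [card_ms])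
  refine hYLL (DivR w) _ {x | ∃ A : DivZ w, VAmp H₀ A ∧ x = toR A} hbil ?_ ?_ ?_ ?_
  · rintro _ ⟨A, hA, rfl⟩ _ ⟨B, hB, rfl⟩
    exact ⟨A + B, q1 A B hA hB, (toR_add A B).symm⟩
  · exact (hSPN K N _ w i₀ H₀ hsm hH).2.1
  · rintro _ ⟨A, hA, rfl⟩ _ ⟨B, hB, rfl⟩
    obtain ⟨TA, hTA⟩ := (q4 A).1 hA
    obtain ⟨TB, hTB⟩ := (q4 B).1 hB
    obtain ⟨h1, h2⟩ := hval A B TA TB hTA hTB
    change 0 < ofMulti μ _
    rw [h1]
    exact_mod_cast Nat.pos_of_ne_zero h2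
  · rintro _ ⟨A, hA, rfl⟩ _ ⟨B, hB, rfl⟩
    obtain ⟨TA, hTA⟩ := (q4 A).1 hA
    obtain ⟨TB, hTB⟩ := (q4 B).1 hB
    have h := hHX ℂ v.1.Res J (fun j => v.1.res (T j)) (v.1.res TA) (v.1.res TB)
      (fun j => v.1.res_nz (q6 _ _ (hT j)).2) (v.1.res_nz (q6 _ _ hTA).2)
      (v.1.res_nz (q6 _ _ hTB).2) (hXR2 K N _ w hsm i₀ H₀ A TA hH hTA v)
      (hXR2 K N _ w hsm i₀ H₀ B TB hH hTB v) (by rw [htr])
    change ofMulti μ _ * ofMulti μ _ ≤ ofMulti μ _ ^ 2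
    rw [(hval A A TA TA hTA hTA).1, (hval B B TB TB hTB hTB).1, (hval A B TA TB hTA hTB).1]
    exact_mod_cast h

end Pool.Agent.H87.KN
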