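import Pool.Agent.H87.SC.SG

/-!
Module SD of block B5 (MP_f2954d_ag).
-/

namespace Pool.Agent.H87.KN

open SC

/-- the equivalence `Fin 3 ≃ Unit ⊕ Fin 2` -/
def e3 : Fin 3 ≃ Unit ⊕ Fin 2 where
  toFun := ![Sum.inl (), Sum.inr 0, Sum.inr 1]
  invFun := Sum.elim (fun _ => 0) ![1, 2]
  left_inv := by intro i; fin_cases i <;> rfl
  right_inv := by
    rintro (⟨⟩ | i)
    · rfl
    · fin_cases i <;> rfl

/-- module SD -/
theorem sd (hG3i : T_G3i) (hG3t : T_G3t) (hG2r : T_G2r) (hM8 : T_M8) (hM9 : T_M9) : T_SD := by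
  intro K L J _ _ _ _ _ _ _ _ S U G B T₀ hS hG hB hT₀ hU hi htr m g hm hg hg0
  classical
  obtain ⟨hess, -, htrL⟩ := hG3t ℂ K L J S U (Fintype.card J + 3) hS hU hi (by rw [htr])
  have hcz : CharZero (kU ℂ U) := charZero_kU U
  have htr3 : Algebra.trdeg (kU ℂ U) L = (Fintype.card (Fin 2) + 1 : ℕ) := by
    rw [htrL]; norm_num
  have hGL := Sys.up_nz L hG
  have hBL := Sys.up_nz L hB
  have hTL := Sys.up_nz L hT₀
  set ci : DV (kU ℂ U) L → ℤ := fun u => u.ord g - m * u.mo (G.up L) + m * u.mo (B.up L) with hci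
  have hci0 : ∀ u, 0 ≤ ci u := by
    intro u
    have h1 := (hg u).resolve_left hg0
    unfold DV.val at h1
    simp only [List.map_cons, List.map_nil, List.sum_cons, List.sum_nil] at h1
    simp only [hci]
    linarith
  have hfinR : {u | ci u ≠ 0 ∧ Rel K L J S U T₀ u}.Finite := by
    have f1 := (hM8 (kU ℂ U) L (Fin 2) (fun _ => T₀.up L) (fun _ => hTL) htr3 g).1
    have f2 := (hM9 (kU ℂ U) L (Fin 2) (fun _ => T₀.up L) (G.up L) (fun _ => hTL) hGL htr3).1
    have f3 := (hM9 (kU ℂ U) L (Fin 2) (fun _ => T₀.up L) (B.up L) (fun _ => hTL) hBL htr3).1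
    refine ((f1.union f2).union f3).subset ?_
    rintro u ⟨hu, hrel⟩
    by_cases h1 : u.ord g = 0
    · by_cases h2 : u.mo (G.up L) = 0
      · by_cases h3 : u.mo (B.up L) = 0
        · exact absurd (by simp only [hci, h1, h2, h3]; ring) hu
        · exact Or.inr ⟨h3, hrel⟩
      · exact Or.inl (Or.inr ⟨h2, hrel⟩)
    · exact Or.inl (Or.inl ⟨h1, hrel⟩)
  refine ⟨hfinR.toFinset, ?_, fun u => (ci u).toNat, ?_⟩
  · intro u hu
    rw [Set.Finite.mem_toFinset] at hu
    exact hu.2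
  intro A A' hA hA' hrel
  have hAL := Sys.up_nz L hA
  have hAL' := Sys.up_nz L hA'
  have hnz2 : ∀ j, (![A.up L, A'.up L] j).Nz := by intro j; fin_cases j <;> assumption
  set I : DV (kU ℂ U) L → ℤ := fun u => (Idx ![u.res (A.up L), u.res (A'.up L)] (kU ℂ U) : ℤ)
    with hI
  have hI' : ∀ u : DV (kU ℂ U) L,
      (Idx (fun j => u.res (![A.up L, A'.up L] j)) (kU ℂ U) : ℤ) = I u := by
    intro u
    simp only [hI]
    congr 2
    funext j
    fin_cases j <;> rfl
  have hIn : ∀ u : DV (kU ℂ U) L,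
      Idx (fun j => u.res (![A.up L, A'.up L] j)) (kU ℂ U) ≠ 0 ↔ I u ≠ 0 := by
    intro u
    rw [← hI']
    simp
  have key : ∀ V : Sys K, V.Nz → (Idx (Sum.elim S ![V, A, A']) ℂ : ℤ) =
      (Idx (Sum.elim (fun _ : Unit => V.up L) ![A.up L, A'.up L]) (kU ℂ U) : ℤ) := by
    intro V hV
    have hT : ∀ j, (![V, A, A'] j).Nz := by intro j; fin_cases j <;> assumption
    rw [(hG3i ℂ K L J (Fin 3) S ![V, A, A'] U hS hT hU).1 hi,
      ← hG2r (kU ℂ U) L (Unit ⊕ Fin 2) (Fin 3) (Sum.elim (fun _ : Unit => V.up L)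
        ![A.up L, A'.up L]) e3 (by
          rintro (_ | j)
          · exact Sys.up_nz L hV
          · exact hnz2 j)]
    congr 2
    funext j
    fin_cases j <;> rfl
  obtain ⟨f1, s1⟩ := hM8 (kU ℂ U) L (Fin 2) ![A.up L, A'.up L] hnz2 htr3 g
  obtain ⟨f2, s2⟩ := hM9 (kU ℂ U) L (Fin 2) ![A.up L, A'.up L] (G.up L) hnz2 hGL htr3
  obtain ⟨f3, s3⟩ := hM9 (kU ℂ U) L (Fin 2) ![A.up L, A'.up L] (B.up L) hnz2 hBL htr3
  simp only [hIn] at f1 f2 f3
  simp only [hI'] at s1 s2 s3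
  rw [key G hG, key B hB, s2, s3]
  set F : Finset (DV (kU ℂ U) L) := ((f1.toFinset ∪ f2.toFinset) ∪ f3.toFinset) ∪
    hfinR.toFinset with hF
  have t1 : ∑ᶠ v : DV (kU ℂ U) L, v.ord g * I v = ∑ v ∈ F, v.ord g * I v := by
    apply finsum_eq_sum_of_support_subset
    intro v hv
    rw [Function.mem_support] at hv
    have : v ∈ f1.toFinset := by
      rw [Set.Finite.mem_toFinset]
      exact ⟨left_ne_zero_of_mul hv, right_ne_zero_of_mul hv⟩
    simp only [hF, Finset.coe_union]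
    exact Or.inl (Or.inl (Or.inl this))
  have t2 : ∑ᶠ v : DV (kU ℂ U) L, v.mo (G.up L) * I v = ∑ v ∈ F, v.mo (G.up L) * I v := by
    apply finsum_eq_sum_of_support_subset
    intro v hv
    rw [Function.mem_support] at hv
    have : v ∈ f2.toFinset := by
      rw [Set.Finite.mem_toFinset]
      exact ⟨left_ne_zero_of_mul hv, right_ne_zero_of_mul hv⟩
    simp only [hF, Finset.coe_union]
    exact Or.inl (Or.inl (Or.inr this))
  have t3 : ∑ᶠ v : DV (kU ℂ U) L, v.mo (B.up L) * I v = ∑ v ∈ F, v.mo (B.up L) * I v := by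
    apply finsum_eq_sum_of_support_subset
    intro v hv
    rw [Function.mem_support] at hv
    have : v ∈ f3.toFinset := by
      rw [Set.Finite.mem_toFinset]
      exact ⟨left_ne_zero_of_mul hv, right_ne_zero_of_mul hv⟩
    simp only [hF, Finset.coe_union]
    exact Or.inl (Or.inr this)
  have t4 : ∑ u ∈ hfinR.toFinset, (((ci u).toNat : ℕ) : ℤ) * I u = ∑ u ∈ F, ci u * I u := by
    have h1 : ∑ u ∈ hfinR.toFinset, (((ci u).toNat : ℕ) : ℤ) * I u =
        ∑ u ∈ hfinR.toFinset, ci u * I u := by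
      apply Finset.sum_congr rfl
      intro u _
      rw [Int.toNat_of_nonneg (hci0 u)]
    rw [h1]
    apply Finset.sum_subset
    · intro u hu
      rw [hF, Finset.mem_union]
      exact Or.inr hu
    · intro u _ hu
      rw [Set.Finite.mem_toFinset] at hu
      by_cases h2 : I u = 0
      · rw [h2, mul_zero]
      · have h3 : Rel K L J S U T₀ u := hrel u (by simpa [hI] using h2)
        have h4 : ci u = 0 := by
          by_contra h5
          exact hu ⟨h5, h3⟩
        rw [h4, zero_mul]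
  rw [t4, t2, t3]
  rw [t1] at s1
  have h5 : ∑ u ∈ F, ci u * I u = (∑ v ∈ F, v.ord g * I v) -
      m * (∑ v ∈ F, v.mo (G.up L) * I v) + m * (∑ v ∈ F, v.mo (B.up L) * I v) := by
    rw [Finset.mul_sum, Finset.mul_sum, ← Finset.sum_sub_distrib, ← Finset.sum_add_distrib]
    apply Finset.sum_congr rfl
    intro u _
    simp only [hci]
    ring
  rw [h5, s1]
  ring

end Pool.Agent.H87.KN
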