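import Pool.Agent.H15.SC.TargetsY

/-!
Module SG of block B5 (MP_f2954d_ag).
-/

namespace Pool.Agent.H87.KN

open SC

lemma charZero_kU {k L V : Type} [Field k] [CharZero k] [Field L] [Algebra k L] (U : V → L) :
    CharZero (kU k U) := charZero_of_injective_algebraMap (algebraMap k (kU k U)).injective

/-- module SG -/
theorem sg (hG3i : T_G3i) (hG3t : T_G3t) (hSIU : T_SIU) (hXR3 : T_XR3) : T_SG := by
  intro K L J _ _ _ _ _ _ _ _ S U G B hS hG hB hgG hgB hU htr hlt
  have hT1 : ∀ j, (![G, G, B] j).Nz := by intro j; fin_cases j <;> assumption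
  have hT2 : ∀ j, (![G, G, G] j).Nz := by intro j; fin_cases j <;> assumption
  have h1 := hG3i ℂ K L J (Fin 3) S ![G, G, B] U hS hT1 hU
  have h2 := hG3i ℂ K L J (Fin 3) S ![G, G, G] U hS hT2 hU
  by_cases hi : AlgebraicIndependent ℂ U
  swap
  · rw [h1.2 hi, h2.2 hi] at hlt; omega
  refine ⟨hi, ?_⟩
  rw [h1.1 hi, h2.1 hi] at hlt
  have e1 : (fun j => (![G, G, B] j).up L) = ![G.up L, G.up L, B.up L] := by
    funext j; fin_cases j <;> rfl
  have e2 : (fun j => (![G, G, G] j).up L) = ![G.up L, G.up L, G.up L] := by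
    funext j; fin_cases j <;> rfl
  rw [e1, e2] at hlt
  obtain ⟨hess, -, htrL⟩ := hG3t ℂ K L J S U (Fintype.card J + 3) hS hU hi (by rw [htr])
  have : CharZero (kU ℂ U) := charZero_kU U
  refine hSIU (kU ℂ U) L (G.up L) (B.up L) ?_ ?_ ?_ (hXR3 ℂ K L J S U G hU hgG)
    (hXR3 ℂ K L J S U B hU hgB) hlt
  · rw [htrL]
    norm_num
  · exact Sys.up_nz L hG
  · exact Sys.up_nz L hB

end Pool.Agent.H87.KN
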