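import Pool.Agent.H85.SC.Targets

/-! Module TOT of sc_modules (MP_de9001_an): uniform bound of the weights. -/

set_option autoImplicit false

open Pool.Agent.H85.SC

namespace Pool.Agent.H87.SC

theorem geo (M : ℕ) : ∑ n ∈ Finset.range M, (3 / 4 : ℝ) ^ n ≤ 4 := by
  have h : ∑ n ∈ Finset.range M, (3 / 4 : ℝ) ^ n = 4 - 4 * (3 / 4 : ℝ) ^ M := by
    induction M with
    | zero => simp
    | succ M ih =>
      rw [Finset.sum_range_succ, ih, pow_succ]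
      ring
  rw [h]
  have : (0 : ℝ) ≤ (3 / 4 : ℝ) ^ M := by positivity
  linarith

theorem tot (hD : T_DEC) (hF : T_FAM) : T_TOT := by
  intro S M w hw
  refine (hD S M w hw).trans ?_
  have h1 : ∑ n ∈ Finset.range M, ∑ k ∈ Finset.range M,
        ‖∑ a ∈ (Finset.range M).filter (fun a => n < 2 ^ a ∧ k < 2 ^ a ∧ slot n (2 ^ a + k) < M),
          ∑ z ∈ Finset.Ico (NN (slot n (2 ^ a + k)) : ℤ) (2 * NN (slot n (2 ^ a + k))),
            wx n (2 ^ a + k) z * w ^ z‖ ≤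
      ∑ n ∈ Finset.range M, ∑ k ∈ Finset.range M, 11 * (3 / 4 : ℝ) ^ (n + k) :=
    Finset.sum_le_sum fun n _ => Finset.sum_le_sum fun k _ => hF n k M w hw
  have h2 : ∑ n ∈ Finset.range M, ∑ k ∈ Finset.range M, 11 * (3 / 4 : ℝ) ^ (n + k) =
      11 * ((∑ n ∈ Finset.range M, (3 / 4 : ℝ) ^ n) * ∑ k ∈ Finset.range M, (3 / 4 : ℝ) ^ k) := by
    rw [Finset.sum_mul_sum, Finset.mul_sum]
    refine Finset.sum_congr rfl fun n _ => ?_
    rw [Finset.mul_sum]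
    refine Finset.sum_congr rfl fun k _ => ?_
    rw [pow_add]
  have h3 := geo M
  have h4 : (0 : ℝ) ≤ ∑ n ∈ Finset.range M, (3 / 4 : ℝ) ^ n :=
    Finset.sum_nonneg fun n _ => by positivity
  have h5 : (∑ n ∈ Finset.range M, (3 / 4 : ℝ) ^ n) * ∑ k ∈ Finset.range M, (3 / 4 : ℝ) ^ k ≤
      4 * 4 := mul_le_mul h3 h3 h4 (by norm_num)
  rw [h2] at h1
  linarith

end Pool.Agent.H87.SC
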