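import Pool.Agent.H85.SC.Targets

/-! Module PPR of sc_modules (MP_de9001_an): the pairing of the weight and the function of a
branch. -/

set_option autoImplicit false

open Pool.Agent.H85.SC

open scoped Classical in
theorem Pool.Agent.H87.SC.mem_stn {S : Set ℕ} {M : ℕ} {p : ℕ × ℕ} :
    p ∈ stn S M ↔ (p.1 ∈ Finset.range M ∧ p.2 ∈ Finset.range M) ∧
      p.1 ∈ S ∧ Valid p.1 p.2 ∧ slot p.1 p.2 < M := by
  unfold stn
  rw [Finset.mem_filter, Finset.mem_product]

open scoped Classical in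
theorem Pool.Agent.H87.SC.reg_of_mem {n i : ℕ} {z : ℤ} (hz : z ∈ RS n i) : Reg n i z := by
  unfold RS at hz
  exact (Finset.mem_filter.1 hz).2

namespace Pool.Agent.H87.SC

theorem ppr (hP : T_PRT) (hS : T_STS) (hL : T_LAB) : T_PPR := by
  intro S hT v a hb F hF M hM
  have h1 := hP S (fun z => GG S z * F z) (fun z hz => by
    rw [hL.2.2.2.2.1 S z hz, zero_mul]) M
  rw [h1]
  have h2 : ∀ p ∈ stn S M, ∑ z ∈ RS p.1 p.2, GG S z * F z = if p.2 = 1 then (2 : ℂ) else 0 := by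
    intro p hp
    have hp' : p.1 ∈ S ∧ Valid p.1 p.2 ∧ slot p.1 p.2 < M := (mem_stn.1 hp).2
    rw [← hS S v a hb p.1 p.2 hp'.1 hp'.2.1]
    refine Finset.sum_congr rfl fun z hz => ?_
    have hr : Reg p.1 p.2 z := reg_of_mem hz
    rw [hF p.1 p.2 z hr]
  rw [Finset.sum_congr rfl h2]
  have hlg : lg 1 = 0 := by
    unfold lg
    exact Nat.log_one_right 2
  have h3 : ((0, 1) : ℕ × ℕ) ∈ stn S M := by
    rw [mem_stn, Finset.mem_range, Finset.mem_range]
    refine ⟨⟨show 0 < M by omega, show 1 < M by omega⟩, hT.1, ⟨le_rfl, ?_⟩, ?_⟩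
    · show 0 < 2 ^ lg 1
      rw [hlg]
      norm_num
    · show 1 ^ 2 + 0 < M
      norm_num
      omega
  rw [Finset.sum_eq_single_of_mem (0, 1) h3]
  · rw [if_pos rfl]
  · intro p hp hne
    rw [if_neg]
    intro h4
    have hp' : p.1 ∈ S ∧ Valid p.1 p.2 ∧ slot p.1 p.2 < M := (mem_stn.1 hp).2
    have h5 := hp'.2.1.2
    rw [h4, hlg] at h5
    exact hne (Prod.ext (by simpa using h5) h4)

end Pool.Agent.H87.SC
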