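import Pool.Agent.H85.SC.Targets

/-! Module VVS of sc_modules (MP_de9001_an): values of the cut-offs on the slots. -/

set_option autoImplicit false

open Pool.Agent.H85.SC

namespace Pool.Agent.H87.SC

theorem vvs (hN : T_NNA) : T_VVS := by
  obtain ⟨hpos, hstep, hlt, -⟩ := hN
  have hmono : ∀ r r', r ≤ r' → NN r ≤ NN r' := by
    intro r r' h
    rcases eq_or_lt_of_le h with rfl | h
    · exact le_rfl
    · have := hlt r r' h
      omega
  have hAB : ∀ r, (((2 * NN r : ℕ) : ℝ)) < (NN (r + 1) : ℝ) := by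
    intro r
    have h1 := hstep r
    have h2 := hpos r
    exact_mod_cast (by omega : 2 * NN r < NN (r + 1))
  have k1 : ∀ (r : ℕ) (z : ℤ), |z| ≤ 2 * NN r → VV r z = 1 := by
    intro r z hz
    unfold VV trap
    have h1 : (|(z : ℝ)|) ≤ ((2 * NN r : ℕ) : ℝ) := by
      have : ((|z| : ℤ) : ℝ) ≤ ((2 * NN r : ℤ) : ℝ) := by exact_mod_cast hz
      push_cast at this ⊢
      exact this
    have h2 := hAB r
    have h3 : (1 : ℝ) ≤ ((NN (r + 1) : ℝ) - |(z : ℝ)|) / ((NN (r + 1) : ℝ) - ((2 * NN r : ℕ) : ℝ)) := by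
      rw [le_div_iff₀ (by linarith)]
      linarith
    rw [min_eq_left h3, max_eq_right zero_le_one]
  have k2 : ∀ (r : ℕ) (z : ℤ), (NN (r + 1) : ℤ) ≤ |z| → VV r z = 0 := by
    intro r z hz
    unfold VV trap
    have h1 : (NN (r + 1) : ℝ) ≤ |(z : ℝ)| := by
      have : ((NN (r + 1) : ℤ) : ℝ) ≤ ((|z| : ℤ) : ℝ) := by exact_mod_cast hz
      push_cast at this
      exact this
    have h2 := hAB r
    have h3 : ((NN (r + 1) : ℝ) - |(z : ℝ)|) / ((NN (r + 1) : ℝ) - ((2 * NN r : ℕ) : ℝ)) ≤ 0 :=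
      div_nonpos_of_nonpos_of_nonneg (by linarith) (by linarith)
    rw [max_eq_left ((min_le_right _ _).trans h3)]
  refine ⟨k1, k2, ?_, ?_⟩
  · intro r z
    unfold VV trap
    exact ⟨le_max_left _ _, max_le zero_le_one (min_le_left _ _)⟩
  · intro r r' z h1 h2
    have hz : 0 ≤ z := le_trans (Int.natCast_nonneg _) h1
    split_ifs with h
    · refine k1 r z ?_
      rw [abs_of_nonneg hz]
      have : (NN r' : ℤ) ≤ NN r := by exact_mod_cast hmono r' r h
      linarith
    · refine k2 r z ?_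
      rw [abs_of_nonneg hz]
      have : (NN (r + 1) : ℤ) ≤ NN r' := by exact_mod_cast hmono (r + 1) r' (by omega)
      linarith

end Pool.Agent.H87.SC
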