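import Pool.Agent.H93.SC.Targets2

/-!
Elementary facts on reduction maps (MP_f2954d_ag, modules C4a and C4).
-/

namespace Pool.Agent.H87.KN

open SC

section Red

variable {k K : Type} [Field k] [Field K] [Algebra k K] (v : DV k K)

lemma red_of (x : K) (h : 0 ≤ v.ord x) : v.red x = IsLocalRing.residue v.vs ⟨x, h⟩ := by
  simp [DV.red, h]

lemma red_surj (y : v.Res) : ∃ x : K, 0 ≤ v.ord x ∧ v.red x = y := by
  obtain ⟨⟨x, hx⟩, rfl⟩ := IsLocalRing.residue_surjective y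
  exact ⟨x, hx, red_of v x hx⟩

lemma ord_mul_nonneg {x y : K} (hx : 0 ≤ v.ord x) (hy : 0 ≤ v.ord y) : 0 ≤ v.ord (x * y) :=
  v.vs.mul_mem' hx hy

lemma ord_add_nonneg {x y : K} (hx : 0 ≤ v.ord x) (hy : 0 ≤ v.ord y) : 0 ≤ v.ord (x + y) :=
  v.vs.add_mem' hx hy

lemma red_add {x y : K} (hx : 0 ≤ v.ord x) (hy : 0 ≤ v.ord y) :
    v.red (x + y) = v.red x + v.red y := by
  rw [red_of v x hx, red_of v y hy, red_of v _ (ord_add_nonneg v hx hy), ← map_add]
  rfl

lemma red_mul {x y : K} (hx : 0 ≤ v.ord x) (hy : 0 ≤ v.ord y) :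
    v.red (x * y) = v.red x * v.red y := by
  rw [red_of v x hx, red_of v y hy, red_of v _ (ord_mul_nonneg v hx hy), ← map_mul]
  rfl

lemma red_zero : v.red 0 = 0 := by
  rw [red_of v 0 (by rw [v.ord_zero])]
  exact map_zero _

lemma red_one : v.red 1 = 1 := by
  rw [red_of v 1 (by rw [v.ord_one])]
  exact map_one _

lemma red_base (c : k) : v.red (algebraMap k K c) = algebraMap k v.Res c := by
  rw [red_of v _ (by rw [v.ord_base])]
  rfl

lemma red_eq_zero {x : K} (hx : 0 ≤ v.ord x) : v.red x = 0 ↔ x = 0 ∨ 0 < v.ord x := by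
  rw [red_of v x hx, IsLocalRing.residue_eq_zero_iff, IsLocalRing.mem_maximalIdeal,
    mem_nonunits_iff]
  constructor
  · intro h
    by_contra hc
    push Not at hc
    apply h
    have h0 : v.ord x = 0 := le_antisymm hc.2 hx
    have hinv : 0 ≤ v.ord x⁻¹ := by rw [v.ord_inv, h0]; simp
    refine IsUnit.of_mul_eq_one (⟨x⁻¹, hinv⟩ : v.vs) ?_
    apply Subtype.ext
    change x * x⁻¹ = 1
    exact mul_inv_cancel₀ hc.1
  · rintro h hu
    obtain ⟨y, hy⟩ := hu.exists_right_inv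
    have h1 : x * (y : K) = 1 := congrArg Subtype.val hy
    have hx0 : x ≠ 0 := left_ne_zero_of_mul_eq_one h1
    have hy0 : (y : K) ≠ 0 := right_ne_zero_of_mul_eq_one h1
    rcases h with h | h
    · exact hx0 h
    · have h2 := v.ord_mul x y hx0 hy0
      rw [h1, v.ord_one] at h2
      have h3 : 0 ≤ v.ord (y : K) := y.2
      omega

/-- reduction of a ring all whose elements are integral -/
noncomputable def redHom {A : Type} [CommRing A] (f : A →+* K) (hf : ∀ a, 0 ≤ v.ord (f a)) :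
    A →+* v.Res where
  toFun a := v.red (f a)
  map_one' := by rw [map_one, red_one]
  map_mul' a b := by rw [map_mul, red_mul v (hf a) (hf b)]
  map_zero' := by rw [map_zero, red_zero]
  map_add' a b := by rw [map_add, red_add v (hf a) (hf b)]

@[simp] lemma redHom_apply {A : Type} [CommRing A] (f : A →+* K) (hf : ∀ a, 0 ≤ v.ord (f a))
    (a : A) : redHom v f hf a = v.red (f a) := rfl

lemma ord_pow (x : K) (n : ℕ) : v.ord (x ^ n) = n * v.ord x := by
  by_cases hx : x = 0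
  · subst hx
    rcases n with _ | n
    · simp [v.ord_one]
    · simp [v.ord_zero]
  induction n with
  | zero => simp [v.ord_one]
  | succ n ih =>
    rw [pow_succ, v.ord_mul _ _ (pow_ne_zero _ hx) hx, ih]
    push_cast; ring

lemma ord_div {x y : K} (hx : x ≠ 0) (hy : y ≠ 0) : v.ord (x / y) = v.ord x - v.ord y := by
  rw [div_eq_mul_inv, v.ord_mul _ _ hx (inv_ne_zero hy), v.ord_inv]; ring

/-- minimal order: attained -/
lemma mo_spec (S : Sys K) (hS : S.Nz) :
    (∃ i, S.s i ≠ 0 ∧ v.ord (S.s i) = v.mo S) ∧ ∀ i, S.s i ≠ 0 → v.mo S ≤ v.ord (S.s i) := by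
  have hfin : {z | ∃ i, S.s i ≠ 0 ∧ v.ord (S.s i) = z}.Finite := by
    apply (Set.finite_range (fun i => v.ord (S.s i))).subset
    rintro z ⟨i, -, hi⟩
    exact ⟨i, hi⟩
  have hne : {z | ∃ i, S.s i ≠ 0 ∧ v.ord (S.s i) = z}.Nonempty := by
    obtain ⟨i, hi⟩ := hS
    exact ⟨_, i, hi, rfl⟩
  constructor
  · exact Int.csInf_mem hne hfin.bddBelow
  · intro i hi
    exact csInf_le hfin.bddBelow ⟨i, hi, rfl⟩

lemma mo_eq (S : Sys K) (z : ℤ) (h1 : ∃ i, S.s i ≠ 0 ∧ v.ord (S.s i) = z)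
    (h2 : ∀ i, S.s i ≠ 0 → z ≤ v.ord (S.s i)) : v.mo S = z := by
  have hS : S.Nz := by obtain ⟨i, hi, -⟩ := h1; exact ⟨i, hi⟩
  obtain ⟨⟨i, hi, hi'⟩, h4⟩ := mo_spec v S hS
  obtain ⟨j, hj, hj'⟩ := h1
  apply le_antisymm
  · rw [← hj']; exact h4 j hj
  · rw [← hi']; exact h2 i hi

end Red

end Pool.Agent.H87.KN
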